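import Pool.Agent.Helper50.VC.Vb
import Pool.Agent.Helper38.NS.Bush

/-! Exact entropy calculus: curved lines over a flat base with vector valued top coordinates; the equation of the top
coordinates along the lines holds only modulo `Id r`: points, types of lines, stars, Z-shapes. Version of VM/Zed at
smaller depth. -/

set_option autoImplicit false

namespace Pool.Agent.Helper50.VR

open Pool.Agent.Helper31.EC QS Pool.Agent.Helper38.NS Pool.Agent.Helper96.FLT Pool.Agent.Helper50.CV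
open Pool.Agent.Helper50.VC (VB)

noncomputable section

variable {S : Sp} {d k N : ℕ}

/-- points: height, flat coordinates, top coordinates -/
structure Po (S : Sp) (d N : ℕ) where
  t : QS S
  y : Fin d → QS S
  z : Fin N → QS S

namespace Po

variable (P : Po S d N)

def iT : S.L := dg P.t 1
def iY : S.L := vd P.y 1
def iZ : S.L := vd P.z 1
/-- information of the point -/
def iP : S.L := P.iT ⊔ (P.iY ⊔ P.iZ)
/-- the base point -/
def q : Fin (d + 1) → QS S := Fin.cons P.t P.y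
/-- the point -/
def fQ : Fin (d + 1) ⊕ Fin N → QS S := Sum.elim P.q P.z

theorem vd_q : vd P.q 1 = P.iT ⊔ P.iY := vd_cons _ _ _

theorem vd_fQ : vd P.fQ 1 = P.iP := by
  unfold fQ iP
  rw [vd_sum, vd_q, sup_assoc]
  rfl

/-- two lines through one point -/
structure Star where
  D : Sp
  p1 : Pj D S
  p2 : Pj D S
  cy : ∀ i, p1.qs (P.y i) = p2.qs (P.y i)
  cz : ∀ i, p1.qs (P.z i) = p2.qs (P.z i)
  ct : p1.qs P.t = p2.qs P.t
  ci : ∀ x y, I (p1.map x) (p2.map y) (p1.map (P.iT ⊔ (P.iY ⊔ P.iZ))) = 0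

namespace Star

variable {P} (w : P.Star)

theorem eT : w.p2.map P.iT = w.p1.map P.iT := by
  unfold iT
  rw [← w.p2.qs_dg, ← w.p1.qs_dg, w.ct]

theorem eY : w.p2.map P.iY = w.p1.map P.iY := by
  unfold iY
  rw [← w.p2.qs_vd, ← w.p1.qs_vd]
  exact (vd_congr w.cy 1).symm

theorem eZ : w.p2.map P.iZ = w.p1.map P.iZ := by
  unfold iZ
  rw [← w.p2.qs_vd, ← w.p1.qs_vd]
  exact (vd_congr w.cz 1).symm

end Star

end Po

/-- types of lines: through the point; the equation of the top coordinates holds modulo `Id r`; heights are free, the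
coefficients are functions of the base line, directions are independent of the point -/
structure Tp (P : Po S d N) (r : ℝ) (s : VB S d k N) : Prop where
  t : s.t = P.t
  y : s.fv.y = P.y
  z : ∀ n, P.z n - s.fv.z n ∈ Id S r
  ht : h P.iT (s.fv.iL ⊔ s.fv.iB) = 1
  hF : ∀ (n : Fin N) (j : Fin k), dg (s.c n j.succ) 1 ≤ s.fv.iL
  h1 : I s.fv.iX (P.iY ⊔ P.iZ) P.iT = 0

namespace Tp

variable {P : Po S d N} {r : ℝ} {s s' : VB S d k N}

theorem s0 (hs : Tp P r s) : I P.iT (s.fv.iL ⊔ s.fv.iB) ⊥ = 0 := by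
  refine ind_of_h ?_
  rw [sup_bot_eq, hs.ht]
  exact FV.h_dg1 _ _

theorem s1 (hs : Tp P r s) : I s.fv.iX (P.iT ⊔ (P.iY ⊔ P.iZ)) ⊥ = 0 := by
  refine ind_add (C' := P.iT) (ind_symm ?_) hs.h1 (by rw [sup_bot_eq])
  have h1 : s.fv.iX ≤ s.fv.iL := le_sup_right
  exact ind_of hs.s0 le_rfl bot_le le_sup_left (by order)

/-- the coefficients -/
theorem vc (hs : Tp P r s) : vd s.cf 1 ≤ s.fv.iL ⊔ s.fv.iB := by
  rw [vd_le]
  rintro ⟨n, j⟩
  induction j using Fin.cases with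
  | zero => exact (dg_le_vd s.fv.b 1 n).trans le_sup_right
  | succ j => exact (hs.hF n j).trans le_sup_left

theorem HT (hs : Tp P r s) : H P.iT = 1 := by
  apply le_antisymm (FV.H_dg1 P.t)
  have h1 := h_le_H P.iT (s.fv.iL ⊔ s.fv.iB)
  rw [hs.ht] at h1
  exact h1

/-- coordinates of the base point -/
theorem yi (hs : Tp P r s) (i : Fin d) : P.y i = s.a i + P.t * s.x i := by
  rw [← hs.y, ← hs.t]
  rfl

/-- top coordinates -/
theorem zi (hs : Tp P r s) (n : Fin N) : P.z n - pe (s.c n) P.t ∈ Id S r := by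
  have h1 := hs.z n
  rw [s.z_eq, hs.t] at h1
  exact h1

theorem anti (hs : Tp P r s) {r' : ℝ} (h : r' ≤ r) : Tp P r' s :=
  ⟨hs.t, hs.y, fun n => Id_anti h (hs.z n), hs.ht, hs.hF, hs.h1⟩

end Tp

variable {P : Po S d N} {r : ℝ}

section star

variable {s s' : VB S d k N} (w : P.Star)

/-- the direction of the second line is independent of the point -/
theorem s2 (hs' : Tp P r s') :
    I (w.p2.map s'.fv.iX) (w.p1.map (P.iT ⊔ (P.iY ⊔ P.iZ))) ⊥ = 0 := by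
  have h1 := w.p2.I_map s'.fv.iX (P.iT ⊔ (P.iY ⊔ P.iZ)) ⊥
  rw [hs'.s1, w.p2.map_bot, w.p2.map_sup, w.p2.map_sup, w.eT, w.eY, w.eZ, ← w.p1.map_sup,
    ← w.p1.map_sup] at h1
  exact h1

/-- the direction of the second line is independent of the first line and the height -/
theorem d1 (hs' : Tp P r s') :
    I (w.p2.map s'.fv.iX) (w.p1.map (s.fv.iL ⊔ s.fv.iB) ⊔ w.p1.map P.iT) ⊥ = 0 := by
  have h1 := s2 w hs'
  have h2 := ind_add h1 (ind_symm (w.ci (s.fv.iL ⊔ s.fv.iB ⊔ P.iT) s'.fv.iX)) (by rw [sup_bot_eq])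
  rw [w.p1.map_sup (s.fv.iL ⊔ s.fv.iB)] at h2
  exact ind_of h2 le_rfl bot_le le_sup_left (by order)

theorem d1' (hs : Tp P r s) : I (w.p1.map s.fv.iX) (w.p2.map (s'.fv.iL ⊔ s'.fv.iB) ⊔ w.p1.map P.iT) ⊥ = 0 := by
  have h1 := w.p1.I_map s.fv.iX (P.iT ⊔ (P.iY ⊔ P.iZ)) ⊥
  rw [hs.s1, w.p1.map_bot] at h1
  have h2 := ind_add h1 (w.ci s.fv.iX (s'.fv.iL ⊔ s'.fv.iB ⊔ P.iT)) (by rw [sup_bot_eq])
  rw [w.p2.map_sup (s'.fv.iL ⊔ s'.fv.iB), w.eT] at h2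
  exact ind_of h2 le_rfl bot_le le_sup_left (by order)

/-- the height is independent of the first line and the direction of the second one -/
theorem d2 (hs : Tp P r s) (hs' : Tp P r s') :
    I (w.p1.map P.iT) (w.p1.map (s.fv.iL ⊔ s.fv.iB) ⊔ w.p2.map s'.fv.iX) ⊥ = 0 := by
  have h1 := w.p1.I_map P.iT (s.fv.iL ⊔ s.fv.iB) ⊥
  rw [hs.s0, w.p1.map_bot] at h1
  refine ind_add h1 (C' := w.p1.map (s.fv.iL ⊔ s.fv.iB)) (ind_symm ?_) (by rw [sup_bot_eq])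
  exact ind_of (d1 w hs') bot_le (by order) le_sup_left (by order)

theorem d2' (hs : Tp P r s) (hs' : Tp P r s') :
    I (w.p1.map P.iT) (w.p2.map (s'.fv.iL ⊔ s'.fv.iB) ⊔ w.p1.map s.fv.iX) ⊥ = 0 := by
  have h1 := w.p2.I_map P.iT (s'.fv.iL ⊔ s'.fv.iB) ⊥
  rw [hs'.s0, w.p2.map_bot, w.eT] at h1
  refine ind_add h1 (C' := w.p2.map (s'.fv.iL ⊔ s'.fv.iB)) (ind_symm ?_) (by rw [sup_bot_eq])
  exact ind_of (d1' w hs) bot_le (by order) le_sup_left (by order)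

end star

/-- Z-shape: two stars with the same first line and the same direction of the second line -/
structure Zed (s s' : VB S d k N) (w : P.Star) where
  D : Sp
  q1 : Pj D w.D
  q2 : Pj D w.D
  ca : ∀ i, q1.qs (w.p1.qs (s.a i)) = q2.qs (w.p1.qs (s.a i))
  cu : ∀ i, q1.qs (w.p1.qs (s.x i)) = q2.qs (w.p1.qs (s.x i))
  cc : ∀ n j, q1.qs (w.p1.qs (s.c n j)) = q2.qs (w.p1.qs (s.c n j))
  cx : ∀ i, q1.qs (w.p2.qs (s'.x i)) = q2.qs (w.p2.qs (s'.x i))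
  ci : ∀ x y, I (q1.map x) (q2.map y)
    (q1.map (w.p1.map (s.fv.iL ⊔ s.fv.iB) ⊔ w.p2.map s'.fv.iX)) = 0

theorem exists_zed {s : VB S d k N} (hs : Tp P r s) (s' : VB S d k N) (w : P.Star) : Nonempty (Zed s s' w) := by
  obtain ⟨D, q1, q2, c, i, -⟩ := exists_copyS
    (Sum.elim (fun i => w.p1.qs (s.a i)) (Sum.elim (fun i => w.p1.qs (s.x i))
      (Sum.elim (fun j => w.p1.qs (s.cf j)) (fun i => w.p2.qs (s'.x i)))))
  refine ⟨⟨D, q1, q2, fun j => c (Sum.inl j), fun j => c (Sum.inr (Sum.inl j)),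
    fun n j => c (Sum.inr (Sum.inr (Sum.inl (n, j)))),
    fun j => c (Sum.inr (Sum.inr (Sum.inr j))), ?_⟩⟩
  rw [vd_sum, vd_sum, vd_sum, w.p1.qs_vd, w.p1.qs_vd, w.p1.qs_vd, w.p2.qs_vd] at i
  have h1 : w.p1.map (vd s.cf 1) ≤ w.p1.map (s.fv.iL ⊔ s.fv.iB) := w.p1.map_mono hs.vc
  have h1' : w.p1.map s.fv.iB ≤ w.p1.map (vd s.cf 1) := w.p1.map_mono s.iB_le
  have h3 : w.p1.map s.fv.iL = w.p1.map (vd s.a 1) ⊔ w.p1.map (vd s.x 1) := by
    unfold FV.iL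
    rw [w.p1.map_sup]
    rfl
  have h4 : w.p1.map (s.fv.iL ⊔ s.fv.iB) = w.p1.map s.fv.iL ⊔ w.p1.map s.fv.iB := w.p1.map_sup _ _
  have h2 : w.p1.map (vd s.a 1) ⊔ (w.p1.map (vd s.x 1) ⊔ (w.p1.map (vd s.cf 1) ⊔ w.p2.map (vd s'.x 1))) =
      w.p1.map (s.fv.iL ⊔ s.fv.iB) ⊔ w.p2.map s'.fv.iX := by
    have h5 : s'.fv.iX = vd s'.x 1 := rfl
    rw [h5]
    order
  rw [h2] at i
  exact i

namespace Zed

variable {s s' : VB S d k N} {w : P.Star} (v : Zed s s' w)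

/-- informations of the Z-shape: first height, second height -/
def T0 : v.D.L := v.q1.map (w.p1.map P.iT)
def T0' : v.D.L := v.q2.map (w.p1.map P.iT)
/-- direction of the common line -/
def U : v.D.L := v.q1.map (w.p1.map s.fv.iX)
/-- the common line -/
def R : v.D.L := v.q1.map (w.p1.map (s.fv.iL ⊔ s.fv.iB))
/-- the two parallel lines -/
def K : v.D.L := v.q1.map (w.p2.map (s'.fv.iL ⊔ s'.fv.iB))
def K' : v.D.L := v.q2.map (w.p2.map (s'.fv.iL ⊔ s'.fv.iB))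
def X : v.D.L := v.q1.map (w.p2.map s'.fv.iX)
/-- difference of the heights -/
def tau : QS v.D := v.q2.qs (w.p1.qs P.t) - v.q1.qs (w.p1.qs P.t)

theorem eU : v.q2.map (w.p1.map s.fv.iX) = v.U := by
  unfold U FV.iX
  rw [← w.p1.qs_vd, ← v.q1.qs_vd, ← v.q2.qs_vd]
  exact (vd_congr v.cu 1).symm

theorem eX : v.q2.map (w.p2.map s'.fv.iX) = v.X := by
  unfold X FV.iX
  rw [← w.p2.qs_vd, ← v.q1.qs_vd, ← v.q2.qs_vd]
  exact (vd_congr v.cx 1).symm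

theorem eR : v.q2.map (w.p1.map (s.fv.iL ⊔ s.fv.iB)) = v.R := by
  have h1 : v.q2.map (w.p1.map (vd s.fv.a 1)) = v.q1.map (w.p1.map (vd s.fv.a 1)) := by
    rw [← w.p1.qs_vd, ← v.q1.qs_vd, ← v.q2.qs_vd]
    exact (vd_congr v.ca 1).symm
  have h2 : v.q2.map (w.p1.map (vd s.fv.x 1)) = v.q1.map (w.p1.map (vd s.fv.x 1)) := by
    rw [← w.p1.qs_vd, ← v.q1.qs_vd, ← v.q2.qs_vd]
    exact (vd_congr v.cu 1).symm
  have h3 : v.q2.map (w.p1.map (vd s.fv.b 1)) = v.q1.map (w.p1.map (vd s.fv.b 1)) := by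
    rw [← w.p1.qs_vd, ← v.q1.qs_vd, ← v.q2.qs_vd]
    exact (vd_congr (fun n => v.cc n 0) 1).symm
  unfold R FV.iL FV.iB
  rw [w.p1.map_sup, w.p1.map_sup, v.q2.map_sup, v.q2.map_sup, h1, h2, h3, ← v.q1.map_sup,
    ← v.q1.map_sup]

/-- the first height is independent of the second star -/
theorem e1 (hs : Tp P r s) (hs' : Tp P r s') (y : w.D.L) : I v.T0 (v.R ⊔ v.X ⊔ v.q2.map y) ⊥ = 0 := by
  have h1 := v.q1.I_map (w.p1.map P.iT) (w.p1.map (s.fv.iL ⊔ s.fv.iB) ⊔ w.p2.map s'.fv.iX) ⊥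
  rw [d2 w hs hs', v.q1.map_bot] at h1
  have h2 := ind_add h1 (v.ci (w.p1.map P.iT) y) (by rw [sup_bot_eq])
  rw [v.q1.map_sup] at h2
  exact h2

theorem e1' (hs : Tp P r s) (hs' : Tp P r s') (y : w.D.L) : I v.T0' (v.R ⊔ v.X ⊔ v.q1.map y) ⊥ = 0 := by
  have h1 := v.q2.I_map (w.p1.map P.iT) (w.p1.map (s.fv.iL ⊔ s.fv.iB) ⊔ w.p2.map s'.fv.iX) ⊥
  rw [d2 w hs hs', v.q2.map_bot, v.q2.map_sup, v.eR, v.eX] at h1
  have h3 := ind_symm (v.ci y (w.p1.map P.iT))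
  rw [v.q1.map_sup] at h3
  exact ind_add h1 h3 (by rw [sup_bot_eq]; rfl)

/-- heights are independent of the second line and the direction of the first one -/
theorem e3 (hs : Tp P r s) (hs' : Tp P r s') : I v.T0' (v.K' ⊔ v.U) ⊥ = 0 := by
  have h1 := v.q2.I_map (w.p1.map P.iT) (w.p2.map (s'.fv.iL ⊔ s'.fv.iB) ⊔ w.p1.map s.fv.iX) ⊥
  rw [d2' w hs hs', v.q2.map_bot, v.q2.map_sup, v.eU] at h1
  exact h1

theorem e3' (hs : Tp P r s) (hs' : Tp P r s') : I v.T0 (v.K ⊔ v.U) ⊥ = 0 := by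
  have h1 := v.q1.I_map (w.p1.map P.iT) (w.p2.map (s'.fv.iL ⊔ s'.fv.iB) ⊔ w.p1.map s.fv.iX) ⊥
  rw [d2' w hs hs', v.q1.map_bot, v.q1.map_sup] at h1
  exact h1

theorem HT0 (hs : Tp P r s) : H v.T0 = 1 := by
  unfold T0
  rw [v.q1.H_map, w.p1.H_map, hs.HT]

theorem HT0' (hs : Tp P r s) : H v.T0' = 1 := by
  unfold T0'
  rw [v.q2.H_map, w.p1.H_map, hs.HT]

theorem T0_eq : v.T0 = dg (v.q1.qs (w.p1.qs P.t)) 1 := by
  unfold T0 Po.iT
  rw [← w.p1.qs_dg, ← v.q1.qs_dg]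

theorem T0'_eq : v.T0' = dg (v.q2.qs (w.p1.qs P.t)) 1 := by
  unfold T0' Po.iT
  rw [← w.p1.qs_dg, ← v.q2.qs_dg]

theorem tau_le : dg v.tau 1 ≤ v.T0 ⊔ v.T0' := by
  rw [v.T0_eq, v.T0'_eq]
  unfold tau
  refine (dg_sub_le _ _ le_rfl).trans ?_
  order

theorem T0'_le : v.T0' ≤ v.T0 ⊔ dg v.tau 1 := by
  rw [v.T0_eq, v.T0'_eq]
  have h1 : v.q2.qs (w.p1.qs P.t) = v.q1.qs (w.p1.qs P.t) + v.tau := by
    unfold tau
    ring
  conv_lhs => rw [h1]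
  exact dg_add_le _ _ le_rfl

/-- the first height is independent of the second line, the direction `u` and `tau` -/
theorem e4 (hs : Tp P r s) (hs' : Tp P r s') : I v.T0 (v.K' ⊔ v.U ⊔ dg v.tau 1) ⊥ = 0 := by
  have h1 := v.e3 hs hs'
  have h2 := v.e1 hs hs' (w.p2.map (s'.fv.iL ⊔ s'.fv.iB) ⊔ w.p1.map s.fv.iX ⊔ w.p1.map P.iT)
  rw [v.q2.map_sup, v.q2.map_sup, v.eU] at h2
  have h3 : I v.T0 (v.K' ⊔ v.U ⊔ v.T0') ⊥ = 0 :=
    ind_of h2 le_rfl bot_le le_sup_left (by unfold K' T0'; order)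
  have h4 := I_zero_iff_h.mp h3
  have h5 := I_zero_iff_h.mp h1
  rw [sup_bot_eq, h_bot, v.HT0 hs] at h4
  rw [sup_bot_eq, h_bot, v.HT0' hs] at h5
  have a1 := v.tau_le
  have a2 := v.T0'_le
  have h6 : v.T0' ⊔ v.T0 ⊔ (v.K' ⊔ v.U) = dg v.tau 1 ⊔ v.T0 ⊔ (v.K' ⊔ v.U) := by order
  have h7 : h (v.T0' ⊔ v.T0) (v.K' ⊔ v.U) = h (dg v.tau 1 ⊔ v.T0) (v.K' ⊔ v.U) := by
    unfold h
    rw [h6]
  rw [h_chain, h_chain, h5] at h7
  have h8 : v.T0' ⊔ (v.K' ⊔ v.U) = v.K' ⊔ v.U ⊔ v.T0' := sup_comm _ _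
  rw [h8, h4] at h7
  have h9 := FV.h_dg1 v.tau (v.K' ⊔ v.U)
  refine ind_of_h ?_
  rw [h_bot, sup_bot_eq, v.HT0 hs]
  have h10 : dg v.tau 1 ⊔ (v.K' ⊔ v.U) = v.K' ⊔ v.U ⊔ dg v.tau 1 := sup_comm _ _
  rw [h10] at h7
  linarith

/-- `tau` is independent of the first star -/
theorem e5 (hs : Tp P r s) (hs' : Tp P r s') : I (dg v.tau 1) (v.K ⊔ v.U ⊔ v.T0) ⊥ = 0 := by
  have h2 := v.e1' hs hs' (w.p2.map (s'.fv.iL ⊔ s'.fv.iB) ⊔ w.p1.map s.fv.iX ⊔ w.p1.map P.iT)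
  rw [v.q1.map_sup, v.q1.map_sup] at h2
  have h3 : I v.T0' (v.K ⊔ v.U ⊔ v.T0) ⊥ = 0 :=
    ind_of h2 le_rfl bot_le le_sup_left (by unfold K U T0; order)
  have h4 := I_zero_iff_h.mp h3
  rw [sup_bot_eq, h_bot, v.HT0' hs] at h4
  refine ind_of_h ?_
  rw [h_bot, sup_bot_eq]
  have a1 := v.T0'_le
  have h5 : h v.T0' (v.K ⊔ v.U ⊔ v.T0) ≤ h (dg v.tau 1) (v.K ⊔ v.U ⊔ v.T0) := by
    have h6 := h_mono (B := v.K ⊔ v.U ⊔ v.T0) a1
    have h7 := h_sup_le v.T0 (dg v.tau 1) (v.K ⊔ v.U ⊔ v.T0)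
    have h8 : h v.T0 (v.K ⊔ v.U ⊔ v.T0) = 0 := h_zero (by order)
    linarith
  have h6 := FV.H_dg1 v.tau
  linarith

/-- `tau` is real -/
theorem Htau (hs : Tp P r s) (hs' : Tp P r s') : H (dg v.tau 1) = 1 := by
  apply le_antisymm (FV.H_dg1 v.tau)
  have h1 := v.T0'_le
  have h3 := v.e1' hs hs' (w.p1.map P.iT)
  have h4 : I v.T0' v.T0 ⊥ = 0 := ind_of h3 le_rfl bot_le le_sup_left (by unfold Zed.T0; order)
  have h5 := I_zero_iff_h.mp h4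
  rw [sup_bot_eq, h_bot, v.HT0' hs] at h5
  have h6 := H_chain v.T0 v.T0'
  have h7 := H_sup_le v.T0 (dg v.tau 1)
  have h8 : H (v.T0 ⊔ v.T0') ≤ H (v.T0 ⊔ dg v.tau 1) := H_mono (sup_le le_sup_left h1)
  linarith [v.HT0 hs]

/-- coordinates of the second line -/
theorem za (hs : Tp P r s) (hs' : Tp P r s') (i : Fin d) : v.q1.qs (w.p2.qs (s'.a i)) = v.q2.qs (w.p2.qs (s'.a i)) -
    v.tau * (v.q1.qs (w.p1.qs (s.x i)) - v.q2.qs (w.p2.qs (s'.x i))) := by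
  have h0 : w.p1.qs (s.a i + P.t * s.x i) = w.p2.qs (s'.a i + P.t * s'.x i) := by
    rw [← hs.yi, ← hs'.yi]
    exact w.cy i
  have h1 := congrArg v.q1.qs h0
  have h2 := congrArg v.q2.qs h0
  simp only [map_add, map_mul] at h1 h2
  have ht : w.p1.qs P.t = w.p2.qs P.t := w.ct
  have h3 := congrArg v.q1.qs ht
  have h4 := congrArg v.q2.qs ht
  have c1 : v.q1.qs (w.p1.qs (s.a i)) = v.q2.qs (w.p1.qs (s.a i)) := v.ca i
  have c2 : v.q1.qs (w.p1.qs (s.x i)) = v.q2.qs (w.p1.qs (s.x i)) := v.cu i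
  have c3 : v.q1.qs (w.p2.qs (s'.x i)) = v.q2.qs (w.p2.qs (s'.x i)) := v.cx i
  rw [← h3] at h1
  rw [← h4, ← c1, ← c2] at h2
  rw [c3] at h1
  unfold tau
  linear_combination h2 - h1

/-- the top coordinate of the first line, modulo `Id r` -/
theorem zc (hs : Tp P r s) (hs' : Tp P r s') (r1 : r ≤ 1) (n : Fin N) :
    pe (fun j => v.q1.qs (w.p2.qs (s'.c n j))) (v.q1.qs (w.p1.qs P.t)) -
    (pe (fun j => v.q2.qs (w.p2.qs (s'.c n j))) (v.q1.qs (w.p1.qs P.t) + v.tau) -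
    pe (fun j => v.q1.qs (w.p1.qs (s.c n j))) (v.q1.qs (w.p1.qs P.t) + v.tau) +
    pe (fun j => v.q1.qs (w.p1.qs (s.c n j))) (v.q1.qs (w.p1.qs P.t))) ∈ Id v.D r := by
  have h0 : w.p1.qs (pe (s.c n) P.t) - w.p2.qs (pe (s'.c n) P.t) ∈ Id w.D r := by
    have e1 := (w.p1.qs_mem_Id r1).mpr (hs.zi n)
    have e2 := (w.p2.qs_mem_Id r1).mpr (hs'.zi n)
    rw [map_sub] at e1 e2
    have e3 := (Id w.D r).sub_mem e2 e1
    have e4 : w.p2.qs (P.z n) - w.p2.qs (pe (s'.c n) P.t) - (w.p1.qs (P.z n) - w.p1.qs (pe (s.c n) P.t)) =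
        w.p1.qs (pe (s.c n) P.t) - w.p2.qs (pe (s'.c n) P.t) := by
      rw [w.cz n]
      ring
    rw [e4] at e3
    exact e3
  have h1 := (v.q1.qs_mem_Id r1).mpr h0
  have h2 := (v.q2.qs_mem_Id r1).mpr h0
  rw [map_sub, pe_map, pe_map, pe_map, pe_map] at h1 h2
  have h3 : w.p1.qs P.t = w.p2.qs P.t := w.ct
  have h5 : (fun j => v.q2.qs (w.p1.qs (s.c n j))) = fun j => v.q1.qs (w.p1.qs (s.c n j)) := funext fun j => (v.cc n j).symm
  rw [← h3] at h1 h2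
  rw [h5] at h2
  have h6 : v.q1.qs (w.p1.qs P.t) + v.tau = v.q2.qs (w.p1.qs P.t) := by
    unfold tau
    ring
  rw [h6]
  have h7 := (Id v.D r).sub_mem h2 h1
  refine Eq.subst (motive := fun x => x ∈ Id v.D r) ?_ h7
  ring

end Zed

end

end Pool.Agent.Helper50.VR
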