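import Pool.Agent.Helper38.NS.UQ

/-! Exact entropy calculus: vectors with a deficit and full quotients at the levels up to `r`; the same as the structure
`UQ` at depth `r`. -/

set_option autoImplicit false

namespace Pool.Agent.Helper50.VR

open Filter Topology Pool.Agent.Helper69.RK
open Pool.Agent.Helper31.EC QS Sp Pool.Agent.Helper38.NS

noncomputable section

/-- the vector `z` over `B`: (U) deficit `ρ` at the levels up to `r` on all events, (Q) quotients by real vectors are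
full at the levels up to `r` -/
structure UR (S : Sp) {ν : Type} [Fintype ν] (z : ν → QS S) (B : S.L) (ρ r : ℝ) : Prop where
  U : ∀ (T : Sp) (p : Pj T S) (E : ∀ k, (T.F k).Ω → Prop) (hE : 0 < ul (T.pr E)) (k : ℝ),
    0 ≤ k → k ≤ r → Helper31.EC.h (restL E hE (p.map (vd z k))) (restL E hE (p.map B)) ≤
      (Fintype.card ν - ρ) * k
  Q : ∀ (T : Sp) (p : Pj T S) (X : T.L) (w : ν → QS T) (a : ν) (k : ℝ), 0 ≤ k → k ≤ r →
    I (p.map (vd z k)) X (p.map B) = 0 → (∀ i, dg (w i) 1 ≤ p.map B ⊔ X) → IsUnit (w a) →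
    Helper31.EC.h (vd (fun i => p.qs (z i) * w a - p.qs (z a) * w i) k) (p.map B ⊔ X) =
      (Fintype.card ν - 1) * k

variable {S : Sp} {ν : Type} [Fintype ν] {z : ν → QS S} {B : S.L} {ρ r : ℝ}

theorem UR.anti (hu : UR S z B ρ r) {r' : ℝ} (h : r' ≤ r) : UR S z B ρ r' where
  U := fun T p E hE k h0 h1 => hu.U T p E hE k h0 (h1.trans h)
  Q := fun T p X w a k h0 h1 => hu.Q T p X w a k h0 (h1.trans h)

theorem UR.of_uq (hu : UQ S z B ρ) : UR S z B ρ 1 where
  U := hu.U
  Q := hu.Q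

theorem UR.pull (hu : UR S z B ρ r) {T : Sp} (p : Pj T S) :
    UR T (fun i => p.qs (z i)) (p.map B) ρ r where
  U := by
    intro R q E hE k h0 h1
    have h2 := hu.U R (q.comp p) E hE k h0 h1
    rw [Pj.comp_map, Pj.comp_map] at h2
    rw [p.qs_vd]
    exact h2
  Q := by
    intro R q X w a k h0 h1 h2 h3 h4
    rw [p.qs_vd, ← Pj.comp_map, ← Pj.comp_map] at h2
    rw [← Pj.comp_map] at h3
    have h5 := hu.Q R (q.comp p) X w a k h0 h1 h2 h3 h4
    rw [← Pj.comp_map]
    rw [← h5]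
    congr 2
    funext i
    rw [Pj.comp_qs, Pj.comp_qs]

/-- enlarging the base by independent informations -/
theorem UR.mono (hu : UR S z B ρ r) (r1 : r ≤ 1) {B' : S.L} (hB : B ≤ B') (hi : I (vd z 1) B' B = 0) :
    UR S z B' ρ r where
  U := by
    intro T p E hE k h0 h1
    exact (h_anti (restL_mono E hE (p.map_mono hB))).trans (hu.U T p E hE k h0 h1)
  Q := by
    intro T p X w a k h0 h1 h2 h3 h4
    have hB' := p.map_mono hB
    have h5 : I (p.map (vd z k)) (p.map B') (p.map B) = 0 := by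
      rw [p.I_map]
      exact I_zero_mono hi ((vd_mono z (h1.trans r1)).trans le_sup_left) le_sup_left
    have h6 := ind_add h5 h2 (by order)
    have h7 := hu.Q T p (p.map B' ⊔ X) w a k h0 h1 h6 (fun i => (h3 i).trans le_sup_right) h4
    have h8 : p.map B ⊔ (p.map B' ⊔ X) = p.map B' ⊔ X := by order
    rw [h8] at h7
    exact h7

/-- shifting by base functions -/
theorem UR.shift (hu : UR S z B ρ r) (r1 : r ≤ 1) {f : ν → QS S} (hf : ∀ i, dg (f i) 1 ≤ B) :
    UR S (fun i => z i + f i) B ρ r where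
  U := by
    intro T p E hE k h0 h1
    have h2 := hu.U T p E hE k h0 h1
    refine le_trans (le_of_eq ?_) h2
    have h3 := congrArg (fun x => restL E hE (p.map x)) (vd_shift z f (h1.trans r1) hf)
    beta_reduce at h3
    rw [p.map_sup, p.map_sup, restL_sup, restL_sup] at h3
    exact h_congr_left (by order) (by order)
  Q := by
    intro T p X w a k h0 h1 h2 h3 h4
    have e1 := congrArg p.map (vd_shift z f (h1.trans r1) hf)
    rw [p.map_sup, p.map_sup] at e1
    have h5 : I (p.map (vd z k)) X (p.map B) = 0 := I_zero_mono h2 (by order) le_sup_left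
    have h6 := hu.Q T p X w a k h0 h1 h5 h3 h4
    rw [← h6]
    have hpf : ∀ i, dg (p.qs (f i)) 1 ≤ p.map B ⊔ X := by
      intro i
      rw [p.qs_dg]
      exact (p.map_mono (hf i)).trans le_sup_left
    have e2 := vd_shift (fun i => p.qs (z i) * w a - p.qs (z a) * w i)
      (fun i => p.qs (f i) * w a - p.qs (f a) * w i) (B := p.map B ⊔ X) (h1.trans r1) (fun i => by
        apply (Kn T 1 le_rfl _).sub_mem
        · exact (Kn T 1 le_rfl _).mul_mem (hpf i) (h3 a)
        · exact (Kn T 1 le_rfl _).mul_mem (hpf a) (h3 i))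
    have e3 : (fun i => p.qs (z i) * w a - p.qs (z a) * w i + (p.qs (f i) * w a - p.qs (f a) * w i)) =
        fun i => p.qs (z i + f i) * w a - p.qs (z a + f a) * w i := by
      funext i
      rw [map_add, map_add]
      ring
    rw [e3] at e2
    exact h_congr_left (by order) (by order)

/-- equality modulo `Id r` -/
theorem UR.congr (hu : UR S z B ρ r) (r1 : r ≤ 1) {z' : ν → QS S} (hz : ∀ i, z i - z' i ∈ Id S r) :
    UR S z' B ρ r := by
  have e1 : ∀ k, k ≤ r → vd z' k = vd z k := by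
    intro k hk
    unfold vd
    congr 1
    funext i
    exact (dg_eq_of_sub_mem (hz i) hk (hk.trans r1)).symm
  refine ⟨fun T p E hE k h0 h1 => ?_, fun T p X w a k h0 h1 h2 h3 h4 => ?_⟩
  · rw [e1 k h1]
    exact hu.U T p E hE k h0 h1
  · rw [e1 k h1] at h2
    rw [← hu.Q T p X w a k h0 h1 h2 h3 h4]
    have e2 : ∀ i, p.qs (z i) - p.qs (z' i) ∈ Id T r := by
      intro i
      rw [← map_sub, p.qs_mem_Id r1]
      exact hz i
    have e3 : vd (fun i => p.qs (z' i) * w a - p.qs (z' a) * w i) k =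
        vd (fun i => p.qs (z i) * w a - p.qs (z a) * w i) k := by
      unfold vd
      congr 1
      funext i
      refine (dg_eq_of_sub_mem (r := r) ?_ h1 (h1.trans r1)).symm
      have e4 : p.qs (z i) * w a - p.qs (z a) * w i - (p.qs (z' i) * w a - p.qs (z' a) * w i) =
          w a * (p.qs (z i) - p.qs (z' i)) - w i * (p.qs (z a) - p.qs (z' a)) := by ring
      rw [e4]
      exact (Id T r).sub_mem ((Id T r).mul_mem_left _ (e2 i)) ((Id T r).mul_mem_left _ (e2 a))
    rw [e3]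

/-- DEPTH CHANGE -/
theorem UR.toUQ (hu : UR S z B ρ r) (κ : ℝ) (h0 : 0 < κ) (h1 : κ ≤ 1) (hκ : κ ≤ r) :
    UQ (dp S κ h0) (fun i => dQ κ h0 h1 (z i)) (dL κ h0 B) ρ where
  U := by
    intro T p E hE k k0 k1
    rw [dQ_vd κ h0 h1 z k1, h_undo]
    have hk : κ * k ≤ r := by
      calc κ * k ≤ κ * 1 := mul_le_mul_of_nonneg_left k1 h0.le
        _ = κ := mul_one κ
        _ ≤ r := hκ
    have h2 := hu.U (uS p) (uP p) E hE (κ * k) (mul_nonneg h0.le k0) hk
    rw [div_le_iff₀ h0]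
    refine h2.trans (le_of_eq ?_)
    ring
  Q := by
    intro T p X w a k k0 k1 h2 h3 h4
    have hk : κ * k ≤ r := by
      calc κ * k ≤ κ * 1 := mul_le_mul_of_nonneg_left k1 h0.le
        _ = κ := mul_one κ
        _ ≤ r := hκ
    obtain ⟨Y, hY⟩ := uI_surj p X
    have hl : ∀ i, ∃ v : QS (uS p), dQ κ h0 h1 v = (uI p).qs (w i) ∧
        dL κ h0 (dg v 1) = (uI p).map (dg (w i) 1) := fun i => uI_lift h1 p (w i)
    choose v hv hvd using hl
    have a1 : I ((uP p).map (vd z (κ * k))) Y ((uP p).map B) = 0 := by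
      have b1 := (uI p).I_map (p.map (vd (fun i => dQ κ h0 h1 (z i)) k)) X (p.map (dL κ h0 B))
      rw [h2, dQ_vd κ h0 h1 z k1, uI_map, uI_map, ← hY, dL_I, div_eq_zero_iff, or_iff_left h0.ne'] at b1
      exact b1
    have a2 : ∀ i, dg (v i) 1 ≤ (uP p).map B ⊔ Y := by
      intro i
      rw [← dL_le κ h0, hvd, dL_sup, ← uI_map, hY, ← (uI p).map_sup]
      exact (uI p).map_mono (h3 i)
    have a3 : IsUnit (v a) := by
      apply isUnit_dQ h0 h1
      rw [hv]
      exact h4.map _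
    have a4 := hu.Q (uS p) (uP p) Y v a (κ * k) (mul_nonneg h0.le k0) hk a1 a2 a3
    have e1 : (uI p).map (vd (fun i => p.qs (dQ κ h0 h1 (z i)) * w a - p.qs (dQ κ h0 h1 (z a)) * w i) k) =
        dL κ h0 (vd (fun i => (uP p).qs (z i) * v a - (uP p).qs (z a) * v i) (κ * k)) := by
      rw [← (uI p).qs_vd, ← dQ_vd κ h0 h1 _ k1]
      congr 1
      funext i
      rw [map_sub, map_mul, map_mul, map_sub, map_mul, map_mul, uI_qs h1, uI_qs h1, hv, hv]
    have e2 : (uI p).map (p.map (dL κ h0 B) ⊔ X) = dL κ h0 ((uP p).map B ⊔ Y) := by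
      rw [(uI p).map_sup, uI_map, dL_sup, hY]
    have a5 := (uI p).h_map (vd (fun i => p.qs (dQ κ h0 h1 (z i)) * w a -
      p.qs (dQ κ h0 h1 (z a)) * w i) k) (p.map (dL κ h0 B) ⊔ X)
    rw [e1, e2, dL_h, a4] at a5
    rw [← a5]
    field_simp

theorem H_rest_dL {T : Sp} {κ : ℝ} {h0 : 0 < κ} (E : ∀ k, (T.F k).Ω → Prop) (hE : 0 < ul (T.pr E)) (x : T.L) :
    H (restL (S := dp T κ h0) E hE (dL κ h0 x)) = H (restL E hE x) / κ := by
  induction x using cl_ind with | _ A
  show ul (((dp T κ h0).rest E).rt A.1 ((dp T κ h0).rest E).tr) = ul ((T.rest E).rt A.1 (T.rest E).tr) / κ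
  have h1 : (fun k => κ⁻¹ * (T.rest E).rt A.1 (T.rest E).tr k) =
      ((dp T κ h0).rest E).rt A.1 ((dp T κ h0).rest E).tr := by
    funext k
    have z1 : (⊤ : Setoid (T.F k).Ω) ⊓ (⊤ ⊓ (T.F k).Z) = (T.F k).Z := by rw [top_inf_eq, top_inf_eq]
    have z2 : (⊤ : Setoid (T.F k).Ω) ⊓ (T.F k).Z = (T.F k).Z := top_inf_eq _
    have e1 : ((dp T κ h0).rest E).rt A.1 ((dp T κ h0).rest E).tr k =
        ((T.F k).rest (E k)).e (A.1 k) (T.F k).Z / (κ * (T.F k).n) :=
      congrArg (fun X : Setoid (T.F k).Ω => ((T.F k).rest (E k)).e (A.1 k) X / (κ * (T.F k).n)) z1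
    have e2 : (T.rest E).rt A.1 (T.rest E).tr k = ((T.F k).rest (E k)).e (A.1 k) (T.F k).Z / (T.F k).n :=
      congrArg (fun X : Setoid (T.F k).Ω => ((T.F k).rest (E k)).e (A.1 k) X / (T.F k).n) z2
    rw [e1, e2]
    have := (T.F k).pos
    field_simp
  have h2 := ul_const_mul κ⁻¹ (UB_rt (restI (S := T) E A) (T.rest E).tr)
  exact (congrArg ul h1).symm.trans (h2.trans (div_eq_inv_mul _ _).symm)

theorem h_rest_dP {T : Sp} {κ : ℝ} {h0 : 0 < κ} (p : Pj T S) (E : ∀ k, (T.F k).Ω → Prop) (hE : 0 < ul (T.pr E))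
    (x y : S.L) : Helper31.EC.h (restL (S := dp T κ h0) E hE ((dP κ h0 p).map (dL κ h0 x)))
      (restL (S := dp T κ h0) E hE ((dP κ h0 p).map (dL κ h0 y))) =
      Helper31.EC.h (restL E hE (p.map x)) (restL E hE (p.map y)) / κ := by
  rw [dP_map, dP_map]
  have e1 := H_rest_dL (κ := κ) (h0 := h0) E hE (p.map x ⊔ p.map y)
  have e2 := H_rest_dL (κ := κ) (h0 := h0) E hE (p.map y)
  have e3 : restL (S := dp T κ h0) E hE (dL κ h0 (p.map x ⊔ p.map y)) =
      restL (S := dp T κ h0) E hE (dL κ h0 (p.map x)) ⊔ restL (S := dp T κ h0) E hE (dL κ h0 (p.map y)) := by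
    rw [dL_sup]
    exact restL_sup _ _ _ _
  have e4 : restL E hE (p.map x ⊔ p.map y) = restL E hE (p.map x) ⊔ restL E hE (p.map y) := restL_sup _ _ _ _
  rw [e3, e4] at e1
  show H (_ ⊔ _) - H _ = (H (_ ⊔ _) - H _) / κ
  rw [e1, e2, sub_div]

/-- the structure `UQ` at depth `r` is `UR` -/
theorem UR.of_dp {h0 : 0 < r} {h1 : r ≤ 1} (hu : UQ (dp S r h0) (fun i => dQ r h0 h1 (z i)) (dL r h0 B) ρ) :
    UR S z B ρ r where
  U := by
    intro T p E hE k k0 k1
    have e0 : r * (k / r) = k := by field_simp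
    have a1 : k / r ≤ 1 := by rwa [div_le_one h0]
    have h2 := hu.U (dp T r h0) (dP r h0 p) E hE (k / r) (div_nonneg k0 h0.le) a1
    rw [dQ_vd r h0 h1 z a1, e0, h_rest_dP, div_le_iff₀ h0] at h2
    refine h2.trans (le_of_eq ?_)
    field_simp
  Q := by
    intro T p X w a k k0 k1 h2 h3 h4
    have e0 : r * (k / r) = k := by field_simp
    have a1 : k / r ≤ 1 := by rwa [div_le_one h0]
    have h5 := hu.Q (dp T r h0) (dP r h0 p) (dL r h0 X) (fun i => dQ r h0 h1 (w i)) a (k / r) (div_nonneg k0 h0.le) a1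
      (by
        rw [dQ_vd r h0 h1 z a1, e0, dP_map, dP_map]
        exact dL_I_zero r h0 h2)
      (fun i => by
        rw [dP_map, ← dL_sup, dQ_dg r h0 h1 _ le_rfl, mul_one, dL_le]
        exact (dg_mono (w i) h1).trans (h3 i))
      (h4.map _)
    have e1 : vd (fun i => (dP r h0 p).qs (dQ r h0 h1 (z i)) * dQ r h0 h1 (w a) -
        (dP r h0 p).qs (dQ r h0 h1 (z a)) * dQ r h0 h1 (w i)) (k / r) =
        dL r h0 (vd (fun i => p.qs (z i) * w a - p.qs (z a) * w i) k) := by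
      have e2 := dQ_vd r h0 h1 (fun i => p.qs (z i) * w a - p.qs (z a) * w i) a1
      rw [e0] at e2
      rw [← e2]
      congr 1
      funext i
      rw [dP_qs, dP_qs, map_sub, map_mul, map_mul]
    rw [e1, dP_map, ← dL_sup, dL_h, div_eq_iff h0.ne'] at h5
    rw [h5]
    field_simp

end

end Pool.Agent.Helper50.VR
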