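import Pool.Agent.Helper50.VC.HV
import Pool.Agent.Helper50.VR.Ur
import Pool.Agent.Helper50.VR.Rct
import Pool.Agent.Helper38.NS.LoopU

/-! Exact entropy calculus: statement (H1) for curved lines of two types with vector valued top coordinates, the
equation of the top coordinates holding modulo `Id r`: polynomial slopes at depth `r θ`, from theorem W for vectors.
Version of VM/Hm at smaller depth. -/

set_option autoImplicit false

namespace Pool.Agent.Helper50.VR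

open Pool.Agent.Helper31.EC QS Pool.Agent.Helper38.NS Pool.Agent.Helper96.FLT Pool.Agent.Helper50.CV
open Pool.Agent.Helper4.CV (rigW)
open Pool.Agent.Helper50.VC (VB coeff_freeT' lift_dp)
open Pool.Agent.Helper50.VC.VB (pe_hom)

noncomputable section

variable {S : Sp} {d k N : ℕ} {P : Po S d N} {r : ℝ}

/-- the directions of two lines of a star are jointly independent of the point -/
theorem star_XX {s s' : VB S d k N} (hs : Tp2 P r s s') (w : P.Star) :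
    I (w.p1.map s.fv.iX ⊔ w.p2.map s'.fv.iX) (w.p2.map (P.iT ⊔ (P.iY ⊔ P.iZ))) ⊥ = 0 := by
  obtain ⟨Q, hP⟩ : ∃ Q, Q = w.p2.map (P.iT ⊔ (P.iY ⊔ P.iZ)) := ⟨_, rfl⟩
  have hP1 : w.p1.map (P.iT ⊔ (P.iY ⊔ P.iZ)) = Q := by
    rw [hP, w.p1.map_sup, w.p1.map_sup, w.p2.map_sup, w.p2.map_sup, w.eT, w.eY, w.eZ]
  have h2 := s2 w hs.h'
  rw [hP1] at h2
  have h1 := w.p1.I_map s.fv.iX (P.iT ⊔ (P.iY ⊔ P.iZ)) ⊥
  rw [hs.h.s1, w.p1.map_bot, hP1] at h1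
  have h3 := w.ci s.fv.iX s'.fv.iX
  rw [hP1] at h3
  rw [← hP]
  -- `I (X1; P ⊔ X2) = 0`
  have h4 : I (w.p1.map s.fv.iX) (Q ⊔ w.p2.map s'.fv.iX) ⊥ = 0 := ind_add h1 h3 (by rw [sup_bot_eq])
  have h5 : I Q (w.p1.map s.fv.iX) (w.p2.map s'.fv.iX) = 0 :=
    ind_symm (ind_of h4 bot_le (by order) le_sup_left (by order))
  have h6 := ind_add (ind_symm h2) h5 (by rw [sup_bot_eq])
  rw [sup_comm (w.p1.map s.fv.iX)]
  exact ind_symm h6

namespace Rct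

variable {s s' : VB S d k N} {w : P.Star} {v : Zed s s' w} (g : Rct v)

theorem un_b0 (hs : Tp2 P r s s') (r1 : r ≤ 1) {ρ : ℝ} (hu : UR S P.z (P.iT ⊔ P.iY) ρ r) :
    UR g.D g.b0 g.B ρ r := by
  obtain ⟨z', hz'⟩ : ∃ z' : Fin N → QS g.D, z' = fun n => g.s1.qs (v.q1.qs (w.p2.qs (P.z n))) := ⟨_, rfl⟩
  have h1 : UR g.D z' (g.s1.map (v.q1.map (w.p2.map (P.iT ⊔ P.iY)))) ρ r := by
    rw [hz']
    exact ((hu.pull w.p2).pull v.q1).pull g.s1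
  have hB : g.B = g.L ⊔ g.U ⊔ g.T0 := rfl
  have h3 : g.s1.map (v.q1.map (w.p2.map s'.fv.iL)) = g.L := rfl
  have h4' : g.s1.map (v.q1.map (w.p2.map P.iT)) = g.T0 := by rw [w.eT]; rfl
  have hU : g.s1.map (v.q1.map (w.p1.map s.fv.iX)) = g.U := rfl
  have e1 : g.s1.map (v.q1.map (w.p2.map (P.iT ⊔ P.iY))) ≤ g.B := by
    have hYL : P.iY ≤ s'.fv.iL ⊔ P.iT := by
      unfold Po.iY
      rw [vd_le]
      intro i
      rw [hs.h'.yi i]
      have kt : P.t ∈ Kn S 1 le_rfl (s'.fv.iL ⊔ P.iT) := by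
        rw [mem_Kn]
        exact le_sup_right
      apply (Kn S 1 le_rfl _).add_mem
      · exact (dg_le_vd s'.fv.a 1 i).trans (le_sup_left.trans le_sup_left)
      · exact (Kn S 1 le_rfl _).mul_mem kt ((dg_le_vd s'.fv.x 1 i).trans (le_sup_right.trans le_sup_left))
    have h2 : g.s1.map (v.q1.map (w.p2.map (P.iT ⊔ P.iY))) ≤
        g.s1.map (v.q1.map (w.p2.map (s'.fv.iL ⊔ P.iT))) :=
      g.s1.map_mono (v.q1.map_mono (w.p2.map_mono (sup_le le_sup_right hYL)))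
    refine h2.trans ?_
    rw [w.p2.map_sup, v.q1.map_sup, g.s1.map_sup, h4', h3]
    order
  have e2 : g.B ≤ g.s1.map (v.q1.map (w.p2.map (P.iT ⊔ P.iY))) ⊔
      g.s1.map (v.q1.map (w.p1.map s.fv.iX ⊔ w.p2.map s'.fv.iX)) := by
    have hL : s'.fv.iL ≤ (P.iT ⊔ P.iY) ⊔ s'.fv.iX := by
      unfold FV.iL
      apply sup_le _ le_sup_right
      rw [vd_le]
      intro i
      have u1 : s'.fv.a i = P.y i - P.t * s'.fv.x i := by
        rw [hs.h'.yi i]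
        show s'.a i = s'.a i + P.t * s'.x i - P.t * s'.x i
        ring
      rw [u1]
      have kt : P.t ∈ Kn S 1 le_rfl (P.iT ⊔ P.iY ⊔ vd s'.fv.x 1) := by
        rw [mem_Kn]
        exact le_sup_left.trans le_sup_left
      apply (Kn S 1 le_rfl _).sub_mem
      · exact (dg_le_vd P.y 1 i).trans (le_sup_right.trans le_sup_left)
      · exact (Kn S 1 le_rfl _).mul_mem kt ((dg_le_vd s'.fv.x 1 i).trans le_sup_right)
    have h5 := g.s1.map_mono (v.q1.map_mono (w.p2.map_mono hL))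
    rw [h3, w.p2.map_sup, v.q1.map_sup, g.s1.map_sup] at h5
    have h6 : g.T0 ≤ g.s1.map (v.q1.map (w.p2.map (P.iT ⊔ P.iY))) := by
      rw [← h4']
      exact g.s1.map_mono (v.q1.map_mono (w.p2.map_mono le_sup_left))
    rw [hB, v.q1.map_sup, g.s1.map_sup, hU]
    order
  have h5 : UR g.D z' g.B ρ r := by
    refine h1.mono r1 e1 ?_
    have h6 := star_XX hs w
    have h7 := v.q1.I_map (w.p1.map s.fv.iX ⊔ w.p2.map s'.fv.iX) (w.p2.map (P.iT ⊔ (P.iY ⊔ P.iZ))) ⊥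
    rw [h6, v.q1.map_bot] at h7
    have h8 := g.s1.I_map (v.q1.map (w.p1.map s.fv.iX ⊔ w.p2.map s'.fv.iX))
      (v.q1.map (w.p2.map (P.iT ⊔ (P.iY ⊔ P.iZ)))) ⊥
    rw [h7, g.s1.map_bot] at h8
    have e3 : vd z' 1 ≤ g.s1.map (v.q1.map (w.p2.map (P.iT ⊔ (P.iY ⊔ P.iZ)))) := by
      rw [hz', g.s1.qs_vd (fun n => v.q1.qs (w.p2.qs (P.z n))), v.q1.qs_vd (fun n => w.p2.qs (P.z n)),
        w.p2.qs_vd P.z]
      exact g.s1.map_mono (v.q1.map_mono (w.p2.map_mono (le_sup_right.trans le_sup_right)))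
    have e4 : g.s1.map (v.q1.map (w.p2.map (P.iT ⊔ P.iY))) ≤
        g.s1.map (v.q1.map (w.p2.map (P.iT ⊔ (P.iY ⊔ P.iZ)))) :=
      g.s1.map_mono (v.q1.map_mono (w.p2.map_mono (by order)))
    exact ind_symm (ind_of h8 bot_le (e4.trans le_sup_left) (e2.trans (by order)) (e3.trans le_sup_left))
  have h6 : UR g.D (fun n => z' n + -(∑ j, g.cx0 n j * g.t0 ^ ((j : ℕ) + 1))) g.B ρ r := by
    refine h5.shift r1 fun n => ?_
    have kt0 : g.t0 ∈ Kn g.D 1 le_rfl g.B := by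
      rw [mem_Kn, ← g.T0_eq]
      order
    refine (Kn g.D 1 le_rfl g.B).neg_mem ((Kn g.D 1 le_rfl g.B).sum_mem fun j _ =>
      (Kn g.D 1 le_rfl g.B).mul_mem ?_ ((Kn g.D 1 le_rfl g.B).pow_mem kt0 _))
    rw [mem_Kn]
    have a1 := g.lcx0 hs n j
    order
  refine h6.congr r1 fun n => ?_
  have e5 := (g.s1.qs_mem_Id r1).mpr ((v.q1.qs_mem_Id r1).mpr ((w.p2.qs_mem_Id r1).mpr (hs.h'.zi n)))
  have e6 : ∀ a b : QS S, g.s1.qs (v.q1.qs (w.p2.qs (a - b))) = g.s1.qs (v.q1.qs (w.p2.qs a)) -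
      g.s1.qs (v.q1.qs (w.p2.qs b)) := fun a b => by rw [map_sub, map_sub, map_sub]
  rw [e6, pe_map, pe_map, pe_map, CB.Rct.pe_succ] at e5
  have h7 : w.p2.qs P.t = w.p1.qs P.t := w.ct.symm
  rw [h7] at e5
  have u1 : g.s1.qs (v.q1.qs (w.p2.qs (s'.c n 0))) = g.b0 n := rfl
  have u3 : g.s1.qs (v.q1.qs (w.p1.qs P.t)) = g.t0 := rfl
  have u7 : ∀ j : Fin k, g.s1.qs (v.q1.qs (w.p2.qs (s'.c n j.succ))) = g.cx0 n j := fun _ => rfl
  have u8 : g.s1.qs (v.q1.qs (w.p2.qs (P.z n))) = z' n := by rw [hz']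
  simp only [u1, u3, u7, u8] at e5
  refine Eq.subst (motive := fun x => x ∈ Id g.D r) ?_ e5
  ring

end Rct

/-- (H1) for the Taylor coefficients -/
theorem H1TR (hk : 0 < k) (hN : 0 < N) (s s' : VB S d k N) (hs : Tp2 P r s s') (r0 : 0 < r) (r1 : r ≤ 1) {ρ θ : ℝ}
    (θ0 : 0 < θ) (θ1 : θ ≤ 1) (hW : WVQ N ρ θ) (hu : UR S P.z (P.iT ⊔ P.iY) ρ r) (w : P.Star) :
    ∃ (E : Sp) (p : Pj E w.D) (Φ : Fin N → Fin k → Fin (k + 1) → QS E),
      (∀ n i, vd (Φ n i) 1 ≤ p.map (w.p2.map s'.fv.iL ⊔ w.p1.map s.fv.iX)) ∧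
      ∀ n i, p.qs (tay (fun j : Fin k => w.p1.qs (s.c n j.succ)) (w.p1.qs P.t) i) - pe (Φ n i) (p.qs (w.p1.qs P.t)) ∈
        Id E (r * θ) := by
  obtain ⟨v⟩ := exists_zed hs.h s' w
  obtain ⟨g⟩ := exists_rct hs.h' v
  obtain ⟨ι, _, f, hf⟩ := exists_fam g.fB r r0 r1
  rw [g.vd_fB hs] at hf
  have hBf : (g.blk r0 r1 f).B = dL r r0 g.B := hf
  have hh : ∀ x : QS g.D, h (dg x 1) g.B = 1 → h (dg (dQ r r0 r1 x) 1) (g.blk r0 r1 f).B = 1 := by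
    intro x hx
    have h1 : Rl (fun _ : Unit => x) g.B := by
      unfold Rl
      rw [vd_unit, hx, Fintype.card_unit, Nat.cast_one]
    have h2 := rl_dp h1 r r0 r1
    unfold Rl at h2
    rw [vd_unit, Fintype.card_unit, Nat.cast_one] at h2
    rw [hBf]
    exact h2
  obtain ⟨W, p, Φ, h1, h2⟩ := rigW hN (g.blk_ok hs r0 r1 f hf) hk (dQ r r0 r1 g.t1) (dQ r r0 r1 g.tau)
    (fun n i => dQ r r0 r1 (g.A n i)) (fun n i => dQ r r0 r1 (g.C n i)) (fun _ => rfl) (fun _ => rfl)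
    (hh _ (g.ht1 hs)) (hh _ (g.htau hs)) θ0 θ1 hW
    (by
      rw [hBf]
      exact (g.un_b0 hs r1 hu).toUQ r r0 r1 le_rfl)
  rw [hBf] at h1
  have hBd : g.B = g.L ⊔ g.U ⊔ g.T0 := rfl
  -- lift of the slopes
  have l1 : ∀ n i a, ∃ f : QS W, dQ θ θ0 θ1 f = Φ n i a ∧ dg f 1 ≤ p.map (dL r r0 g.B) := fun n i a =>
    lift_dp θ0 θ1 (Φ n i a) ((dg_le_vd (Φ n i) 1 a).trans (h1 n i))
  choose Φ1 l2 l3 using l1
  have l4 : ∀ n i, p.qs (dQ r r0 r1 (g.A n i)) - pe (Φ1 n i) (p.qs (dQ r r0 r1 g.t1)) ∈ Id W θ := by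
    intro n i
    rw [← dQ_eq_zero θ θ0 θ1, map_sub, h2 n i, sub_eq_zero]
    unfold pe
    rw [pe_hom]
    exact Finset.sum_congr rfl fun a _ => by rw [l2]
  -- the extension of the rectangle
  obtain ⟨E, hE⟩ : ∃ E, E = uS p := ⟨_, rfl⟩
  subst hE
  obtain ⟨e, he⟩ : ∃ e : Pj (uS p) g.D, e = uP p := ⟨_, rfl⟩
  have l5 : ∀ n i a, ∃ f : QS (uS p), dQ r r0 r1 f = (uI p).qs (Φ1 n i a) ∧ dg f 1 ≤ e.map g.B := by
    intro n i a
    obtain ⟨f, hf1, hf2⟩ := uI_lift r1 p (Φ1 n i a)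
    refine ⟨f, hf1, ?_⟩
    rw [← dL_le r r0, hf2, he, ← uI_map]
    exact (uI p).map_mono (l3 n i a)
  choose Φ2 m2 m3 using l5
  have m4 : ∀ n i, e.qs (g.A n i) - pe (Φ2 n i) (e.qs g.t1) ∈ Id (uS p) (r * θ) := by
    intro n i
    rw [← dQ_mem r r0 r1 θ1, map_sub]
    have h3 := ((uI p).qs_mem_Id θ1).mpr (l4 n i)
    rw [map_sub, uI_qs r1, pe_map, uI_qs r1] at h3
    unfold pe at h3 ⊢
    rw [pe_hom, he]
    simp only [m2]
    exact h3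
  -- the base `(L, U)` is a family
  have hLU : vd (fun i => e.qs (g.fB (Sum.inl i))) 1 = e.map (g.L ⊔ g.U) := by
    rw [e.qs_vd, g.LU_eq]
  have rt0 : 0 ≤ r * θ := (mul_pos r0 θ0).le
  have rt1 : r * θ ≤ 1 := by nlinarith
  have h3 : ∀ n i, ∃ Φ' : Fin (k + 1) → QS (uS p), vd Φ' 1 ≤ e.map (g.L ⊔ g.U) ∧
      e.qs (g.A n i) - pe Φ' (e.qs g.t1) ∈ Id (uS p) (r * θ) := by
    intro n i
    rw [← hLU]
    refine coeff_freeT' rt0 rt1 (fun i => e.qs (g.fB (Sum.inl i))) (e.map g.T0) (Φ2 n i) (e.qs (g.A n i))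
      (e.qs g.t1) ?_ ?_ (m4 n i) ?_
    · rw [hLU, ← e.map_sup, ← hBd, vd_le]
      exact fun a => m3 n i a
    · rw [hLU, e.qs_dg, e.qs_dg, ← e.map_sup]
      apply e.map_mono
      have a1 := g.A_le hs n i
      have a0 := g.T1_eq
      order
    · rw [hLU, e.qs_dg, ← e.map_sup, ← hBd, e.h_map]
      exact g.ht1 hs
  choose Φ' k1 k2 using h3
  have eLp : ((e.comp g.s2).comp v.q1).map (w.p2.map s'.fv.iL ⊔ w.p1.map s.fv.iX) = e.map (g.L ⊔ g.U) := by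
    rw [Pj.comp_map, Pj.comp_map, v.q1.map_sup, g.s2.map_sup, g.eL hs]
    have h4 : g.s2.map (v.q1.map (w.p1.map s.fv.iX)) = g.U := g.eU
    rw [h4]
  refine ⟨uS p, (e.comp g.s2).comp v.q1, Φ', ?_, ?_⟩
  · intro n i
    rw [eLp]
    exact k1 n i
  · intro n i
    rw [Pj.comp_qs, Pj.comp_qs, Pj.comp_qs, Pj.comp_qs]
    have h4 : g.s2.qs (v.q1.qs (tay (fun j : Fin k => w.p1.qs (s.c n j.succ)) (w.p1.qs P.t) i)) = g.A n i := by
      rw [tay_map, tay_map]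
      rfl
    rw [h4]
    exact k2 n i

/-- statement (H1) for two types at depth `κ`: along the second line (type `s'`) of a star the coefficients of the
first line (type `s`) are polynomials of the height -/
def H1R (P : Po S d N) (s s' : VB S d k N) (κ : ℝ) : Prop := ∀ w : P.Star, ∃ (E : Sp) (p : Pj E w.D)
  (Ψ : Fin N → Fin k → Fin (2 * k + 1) → QS E),
  (∀ n m, vd (Ψ n m) 1 ≤ p.map (w.p2.map s'.fv.iL ⊔ w.p1.map s.fv.iX)) ∧
  ∀ n m, p.qs (w.p1.qs (s.c n m.succ)) - pe (Ψ n m) (p.qs (w.p1.qs P.t)) ∈ Id E κ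

/-- (H1) for the coefficients, equations of the top coordinates modulo `Id r`: depth `r θ` -/
theorem h1R (hk : 0 < k) (hN : 0 < N) (s s' : VB S d k N) (hs : Tp P r s) (hs' : Tp P r s') (r0 : 0 < r) (r1 : r ≤ 1)
    {ρ θ : ℝ} (θ0 : 0 < θ) (θ1 : θ ≤ 1) (hW : WVQ N ρ θ) (hu : UR S P.z (P.iT ⊔ P.iY) ρ r) :
    H1R P s s' (r * θ) := by
  intro w
  obtain ⟨E, p, Φ, h1, h2⟩ := H1TR hk hN s s' ⟨hs, hs'⟩ r0 r1 θ0 θ1 hW hu w
  refine ⟨E, p, fun nn m n => ∑ l : Fin k, ∑ a : Fin (k + 1), if (l : ℕ) - m + a = n then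
        ((((l : ℕ) + 1).choose ((m : ℕ) + 1) : ℕ) : QS E) * (-1) ^ ((l : ℕ) - m) * Φ nn l a else 0, ?_, ?_⟩
  · intro nn m
    rw [vd_le]
    intro n
    refine (Kn E 1 le_rfl _).sum_mem fun l _ => (Kn E 1 le_rfl _).sum_mem fun a _ => ?_
    split_ifs
    · exact (Kn E 1 le_rfl _).mul_mem ((Kn E 1 le_rfl _).mul_mem (natCast_mem (Kn E 1 le_rfl _) _)
        ((Kn E 1 le_rfl _).pow_mem ((Kn E 1 le_rfl _).neg_mem (Kn E 1 le_rfl _).one_mem) _))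
        ((dg_le_vd (Φ nn l) 1 a).trans (h1 nn l))
    · exact (Kn E 1 le_rfl _).zero_mem
  · intro nn m
    have e1 := tay_tay (fun j : Fin k => w.p1.qs (s.c nn j.succ)) (w.p1.qs P.t) m
    rw [← e1]
    have e3 := collect2 (Φ nn) (p.qs (w.p1.qs P.t)) m
    unfold pe
    rw [← e3, tay_map]
    show (∑ l : Fin k, ((((l : ℕ) + 1).choose ((m : ℕ) + 1) : ℕ) : QS E) * (p.qs (-w.p1.qs P.t)) ^ ((l : ℕ) - m) *
          p.qs (tay (fun j : Fin k => w.p1.qs (s.c nn j.succ)) (w.p1.qs P.t) l)) - _ ∈ _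
    rw [← Finset.sum_sub_distrib]
    apply (Id E (r * θ)).sum_mem
    intro l _
    rw [map_neg, ← mul_sub]
    exact (Id E (r * θ)).mul_mem_left _ (h2 nn l)

end

end Pool.Agent.Helper50.VR
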