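import Pool.Agent.Helper13.AM.Cor
import Pool.Agent.Helper50.VR.Hm

/-! A flat corner (helper13's data `CD`): the point with straightened vertical coordinates and the types of its curves
in the form `Po`, `Tp`. -/

set_option autoImplicit false

namespace Pool.Agent.Helper50.VR

open Pool.Agent.Helper31.EC QS Pool.Agent.Helper38.NS Pool.Agent.Helper96.FLT
open Pool.Agent.Helper13.AM (CD Tri FlatH)
open Pool.Agent.Helper50.VC (VB)

noncomputable section

/-- polynomials padded by zero coefficients -/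
theorem exists_pad {S : Sp} {k K : ℕ} (hk : k ≤ K) (e : Fin (k + 1) → QS S) (A : S.L)
    (he : ∀ l : Fin k, dg (e l.succ) 1 ≤ A) :
    ∃ f : Fin (K + 1) → QS S, f 0 = e 0 ∧ (∀ l : Fin K, dg (f l.succ) 1 ≤ A) ∧ ∀ x, pe f x = pe e x := by
  obtain ⟨g, hg⟩ : ∃ g : ℕ → QS S, g = fun i => if h : i < k + 1 then e ⟨i, h⟩ else 0 := ⟨_, rfl⟩
  have hgi : ∀ i : Fin (k + 1), g i = e i := by
    intro i
    rw [hg]
    beta_reduce
    rw [dif_pos i.isLt]
  have hg0 : ∀ i, ¬ i < k + 1 → g i = 0 := by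
    intro i hi
    rw [hg]
    beta_reduce
    rw [dif_neg hi]
  refine ⟨fun a => g a, hgi 0, fun l => ?_, fun x => ?_⟩
  · show dg (g ((l : ℕ) + 1)) 1 ≤ A
    by_cases h : (l : ℕ) + 1 < k + 1
    · have h1 : (l : ℕ) < k := by omega
      have h2 : g ((l : ℕ) + 1) = e (⟨(l : ℕ), h1⟩ : Fin k).succ := hgi (⟨(l : ℕ), h1⟩ : Fin k).succ
      rw [h2]
      exact he _
    · rw [hg0 _ h]
      exact (Kn S 1 le_rfl A).zero_mem
  · unfold pe
    have h1 : ∑ a : Fin (K + 1), g a * x ^ (a : ℕ) = ∑ i ∈ Finset.range (K + 1), g i * x ^ i :=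
      Fin.sum_univ_eq_sum_range (fun i => g i * x ^ i) (K + 1)
    have h2 : ∑ a : Fin (k + 1), e a * x ^ (a : ℕ) = ∑ i ∈ Finset.range (k + 1), g i * x ^ i := by
      rw [← Fin.sum_univ_eq_sum_range (fun i => g i * x ^ i) (k + 1)]
      exact Finset.sum_congr rfl fun a _ => by rw [hgi]
    rw [h1, h2]
    symm
    apply Finset.sum_subset
    · intro i hi
      rw [Finset.mem_range] at hi ⊢
      omega
    · intro i _ hi
      rw [Finset.mem_range] at hi
      rw [hg0 i hi, zero_mul]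

variable {S : Sp} {d N r : ℕ}

/-- flat corner: point and types for the flat chapter -/
structure FlD (c : CD S d N r) (H : Fin N → MvPolynomial (Fin (d + 1) ⊕ Fin N) (QS S)) (κ : ℝ) {k : ℕ} (P : Po S d N)
    (σ : Fin r → VB S d k N) : Prop where
  t : P.t = c.q 0
  y : ∀ i, P.y i = c.q i.succ
  z : ∀ n, c.cR H n - P.z n ∈ Id S κ
  hz : ∀ n, dg (P.z n) 1 = dg (c.cR H n) κ
  tp : ∀ i, Tp P κ (σ i)
  sx : ∀ i l, (σ i).x l = c.u i l.succ
  sa : ∀ i l, (σ i).a l = c.a i l.succ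
  pO : P.iP ≤ c.O
  xi : ∀ i, (σ i).fv.iL ⊔ (σ i).fv.iB ≤ c.xi i

namespace FlD

variable {c : CD S d N r} {H : Fin N → MvPolynomial (Fin (d + 1) ⊕ Fin N) (QS S)} {κ : ℝ} {k : ℕ} {P : Po S d N}
  {σ : Fin r → VB S d k N}

theorem q (h : FlD c H κ P σ) : P.q = c.q := by
  funext i
  induction i using Fin.cases with
  | zero => exact h.t
  | succ i => exact h.y i

/-- the top coordinates are rounded -/
theorem hr (h : FlD c H κ P σ) (κ1 : κ ≤ 1) (n : Fin N) : dg (P.z n) 1 ≤ dg (P.z n) κ := by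
  rw [h.hz, dg_eq_of_sub_mem (h.z n) le_rfl κ1]

end FlD

/-- ADAPTER: a flat corner gives the point and the types -/
theorem exists_flD (c : CD S d N r) (hl : c.Ln) {H : Fin N → MvPolynomial (Fin (d + 1) ⊕ Fin N) (QS S)}
    (hH : ∀ j, H j ∈ PK ⊥) {κ : ℝ} (κ0 : 0 ≤ κ) (κ1 : κ ≤ 1)
    (hf : FlatH c κ H c.b c.xi) :
    ∃ (k : ℕ) (P : Po S d N) (σ : Fin r → VB S d k N), 0 < k ∧ FlD c H κ P σ := by
  classical
  choose k e h1 h2 h3 using hf
  obtain ⟨K, hK⟩ : ∃ K : ℕ, K = (Finset.univ.sup fun x : Fin r × Fin N => k x.1 x.2) + 1 := ⟨_, rfl⟩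
  have hkK : ∀ i j, k i j ≤ K := by
    intro i j
    have h4 : k i j ≤ Finset.univ.sup fun x : Fin r × Fin N => k x.1 x.2 :=
      Finset.le_sup (f := fun x : Fin r × Fin N => k x.1 x.2) (Finset.mem_univ (i, j))
    omega
  -- padded coefficients
  have hp := fun i j => exists_pad (hkK i j) (e i j) _ (h1 i j)
  choose f f0 f1 f2 using hp
  -- rounding
  have hrd := fun i j => exists_rd (f i j 0) κ0 κ1
  choose g0 g1 g2 using hrd
  have hrz := fun j => exists_rd (c.cR H j) κ0 κ1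
  choose z z1 z2 using hrz
  have hO : ∀ j, dg (c.cR H j) 1 ≤ c.O := by
    intro j
    unfold CD.cR
    have q1 : ∀ a, dg (c.q a) 1 ≤ c.O := fun a => (dg_le_vd c.q 1 a).trans le_sup_left
    have r1 : ∀ a, dg (c.R a) 1 ≤ c.O := fun a => (dg_le_vd c.R 1 a).trans le_sup_right
    apply (Kn S 1 le_rfl _).sub_mem (r1 j)
    refine eval_mem (hH j) _ bot_le fun a => ?_
    rcases a with a | a
    · exact q1 a
    · exact r1 a
  have hbu : ∀ i a, dg (c.u i a) 1 ≤ c.b i := fun i a => (hl.lit i a).2.dg_le (hl.bdd i) le_rfl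
  have hba : ∀ i a, dg (c.a i a) 1 ≤ c.b i := fun i a => (hl.lit i a).1.dg_le (hl.bdd i) le_rfl
  obtain ⟨P, hP⟩ : ∃ P : Po S d N, P = ⟨c.q 0, fun i => c.q i.succ, z⟩ := ⟨_, rfl⟩
  obtain ⟨σ, hσ⟩ : ∃ σ : Fin r → VB S d K N, σ = fun i => ⟨c.q 0, fun l => c.a i l.succ, fun l => c.u i l.succ,
    fun n => Fin.cons (g0 i n) fun l : Fin K => f i n l.succ⟩ := ⟨_, rfl⟩
  have eT : P.iT = dg (c.q 0) 1 := by rw [hP]; rfl
  have eX : ∀ i, (σ i).fv.iX = vd (fun l : Fin d => c.u i l.succ) 1 := fun i => by rw [hσ]; rfl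
  have eL : ∀ i, (σ i).fv.iL = vd (fun l : Fin d => c.a i l.succ) 1 ⊔ vd (fun l : Fin d => c.u i l.succ) 1 :=
    fun i => by rw [hσ]; rfl
  have eB : ∀ i, (σ i).fv.iB = vd (g0 i) 1 := fun i => by
    rw [hσ]
    unfold FV.iB
    apply vd_congr
    intro n
    rfl
  have hL : ∀ i, (σ i).fv.iL ≤ c.b i := by
    intro i
    rw [eL]
    apply sup_le
    · rw [vd_le]
      exact fun l => hba i _
    · rw [vd_le]
      exact fun l => hbu i _
  have hB : ∀ i, (σ i).fv.iB ≤ c.xi i := by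
    intro i
    rw [eB, vd_le]
    intro n
    rw [g2, f0]
    exact (dg_mono _ κ1).trans (h2 i n)
  have hxi : ∀ i, (σ i).fv.iL ⊔ (σ i).fv.iB ≤ c.xi i := by
    intro i
    refine sup_le ((hL i).trans ?_) (hB i)
    unfold CD.xi
    exact le_sup_left
  have hpO : P.iP ≤ c.O := by
    have q1 : ∀ a, dg (c.q a) 1 ≤ c.O := fun a => (dg_le_vd c.q 1 a).trans le_sup_left
    unfold Po.iP Po.iT Po.iY Po.iZ
    rw [hP]
    refine sup_le (q1 0) (sup_le ?_ ?_)
    · rw [vd_le]
      exact fun l => q1 _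
    · rw [vd_le]
      intro n
      show dg (z n) 1 ≤ c.O
      rw [z2]
      exact (dg_mono _ κ1).trans (hO n)
  refine ⟨K, P, σ, by rw [hK]; exact Nat.succ_pos _, ⟨by rw [hP], fun i => by rw [hP], fun n => by rw [hP]; exact z1 n,
    fun n => by rw [hP]; exact z2 n, fun i => ?_, fun i l => by rw [hσ], fun i l => by rw [hσ], hpO, hxi⟩⟩
  refine ⟨by rw [hσ, hP], ?_, ?_, ?_, ?_, ?_⟩
  · funext l
    rw [hσ, hP]
    show c.a i l.succ + c.q 0 * c.u i l.succ = c.q l.succ
    exact (hl.line i l.succ).symm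
  · intro n
    rw [(σ i).z_eq]
    have e1 : pe ((σ i).c n) (σ i).t = g0 i n - f i n 0 + pe (f i n) (c.q 0) := by
      rw [hσ]
      show pe (Fin.cons (g0 i n) fun l : Fin K => f i n l.succ) (c.q 0) = _
      unfold pe
      rw [Fin.sum_univ_succ, Fin.sum_univ_succ]
      simp only [Fin.cons_zero, Fin.cons_succ, Fin.val_zero, pow_zero, mul_one]
      ring
    have e2 : P.z n = z n := by rw [hP]
    rw [e1, e2, f2]
    have e3 := (Id S κ).add_mem ((Id S κ).sub_mem (h3 i n) (z1 n)) (g1 i n)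
    refine Eq.subst (motive := fun x => x ∈ Id S κ) ?_ e3
    ring
  · rw [eT]
    apply le_antisymm (h_dg_le_one _ _)
    refine (hl.time i).ge.trans (h_anti (hxi i))
  · intro n j
    have e1 : (σ i).c n j.succ = f i n j.succ := by
      rw [hσ]
      rfl
    rw [e1]
    refine (f1 i n j).trans ?_
    rw [eL, hl.gen]
    apply sup_le
    · rw [vd_le]
      intro l
      induction l using Fin.cases with
      | zero =>
        rw [hl.a0]
        exact (Kn S 1 le_rfl _).zero_mem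
      | succ l => exact (dg_le_vd (fun l : Fin d => c.a i l.succ) 1 l).trans le_sup_left
    · rw [vd_le]
      intro l
      induction l using Fin.cases with
      | zero =>
        rw [hl.u0]
        exact (Kn S 1 le_rfl _).one_mem
      | succ l => exact (dg_le_vd (fun l : Fin d => c.u i l.succ) 1 l).trans le_sup_right
  · have e1 : (σ i).fv.iX ≤ Finset.univ.sup fun i => vd (c.u i) 1 := by
      rw [eX]
      refine le_trans ?_ (Finset.le_sup (f := fun i => vd (c.u i) 1) (Finset.mem_univ i))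
      rw [vd_le]
      intro l
      exact dg_le_vd (c.u i) 1 l.succ
    have e2 : P.iT ⊔ (P.iY ⊔ P.iZ) ≤ c.O := hpO
    exact ind_of hl.r1 bot_le (le_sup_left.trans (e2.trans le_sup_left)) (e1.trans le_sup_left)
      ((le_sup_right.trans e2).trans le_sup_left)

end

end Pool.Agent.Helper50.VR
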