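import Pool.Agent.Helper38.NS.UrR

/-! Exact entropy calculus: the structure `UR` on events (`UR.rest`) is in Helper38/NS/UrR.lean. -/
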